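import Mathlib

set_option autoImplicit false

namespace Pool.Agent.Y35.PV.QV


/-- A class of groups. -/
abbrev Cls : Type 1 := (G : Type) → [Group G] → Prop

/-- The word `w` is an identity of the class `X`. -/
def Sat (X : Cls) (w : FreeGroup ℕ) : Prop :=
  ∀ (G : Type) [Group G], X G → ∀ φ : FreeGroup ℕ →* G, φ w = 1

/-- kernel of the projection to the ultraproduct -/
def upKer {ι : Type} (U : Filter ι) (G : ι → Type) [∀ i, Group (G i)] :
    Subgroup (∀ i, G i) where
  carrier := {f | ∀ᶠ i in U, f i = 1}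
  one_mem' := Filter.Eventually.of_forall fun i => rfl
  mul_mem' := by
    intro a b ha hb
    filter_upwards [ha, hb] with i h1 h2
    rw [Pi.mul_apply, h1, h2, mul_one]
  inv_mem' := by
    intro a ha
    filter_upwards [ha] with i h1
    rw [Pi.inv_apply, h1, inv_one]

lemma mem_upKer {ι : Type} {U : Filter ι} {G : ι → Type} [∀ i, Group (G i)]
    {f : ∀ i, G i} : f ∈ upKer U G ↔ ∀ᶠ i in U, f i = 1 := Iff.rfl

instance {ι : Type} (U : Filter ι) (G : ι → Type) [∀ i, Group (G i)] :
    (upKer U G).Normal where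
  conj_mem := by
    intro n hn g
    rw [mem_upKer] at *
    filter_upwards [hn] with i h1
    simp [h1]

/-- the ultraproduct -/
abbrev UP {ι : Type} (U : Filter ι) (G : ι → Type) [∀ i, Group (G i)] : Type :=
  (∀ i, G i) ⧸ upKer U G

/-- Classes of filters. -/
abbrev FF : Type 1 := (ι : Type) → Filter ι → Prop

/-- Closed under subgroups and isomorphic groups, cartesian products, and reduced products modulo
the filters of the class `𝒰`. -/
structure Closed (𝒰 : FF) (X : Cls) : Prop where
  inj : ∀ {G H : Type} [Group G] [Group H] (f : H →* G), Function.Injective f → X G → X H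
  pi : ∀ {ι : Type} (G : ι → Type) [∀ i, Group (G i)], (∀ i, X (G i)) → X (∀ i, G i)
  up : ∀ {ι : Type} (U : Filter ι) (_ : 𝒰 ι U) (G : ι → Type) [∀ i, Group (G i)], (∀ i, X (G i)) →
    X (UP U G)

variable {𝒰 : FF}

lemma Closed.triv {X : Cls} (hX : Closed 𝒰 X) {G : Type} [Group G] (h : ∀ g : G, g = 1) : X G := by
  have h1 : X (∀ i : Empty, (fun _ => Unit) i) := hX.pi (ι := Empty) (fun _ => Unit) (fun i => i.elim)
  refine hX.inj (1 : G →* (∀ i : Empty, (fun _ => Unit) i)) ?_ h1
  intro a b _
  rw [h a, h b]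

lemma Closed.subgroup {X : Cls} (hX : Closed 𝒰 X) {G : Type} [Group G] (h : X G) (H : Subgroup G) :
    X H := hX.inj H.subtype H.subtype_injective h

lemma Closed.iso {X : Cls} (hX : Closed 𝒰 X) {G H : Type} [Group G] [Group H] (e : H ≃* G)
    (h : X G) : X H := hX.inj e.toMonoidHom e.injective h

/-- a subgroup of the range of an injective homomorphism from a member -/
lemma Closed.of_le_range {X : Cls} (hX : Closed 𝒰 X) {G K : Type} [Group G] [Group K] (f : K →* G)
    (hf : Function.Injective f) (hK : X K) {H : Subgroup G} (h : H ≤ f.range) : X H := by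
  have h1 : X f.range := hX.iso (MonoidHom.ofInjective hf).symm hK
  exact hX.inj (Subgroup.inclusion h) (Subgroup.inclusion_injective h) h1

/-- a group separated by homomorphisms to members is a member -/
lemma Closed.sep {X : Cls} (hX : Closed 𝒰 X) {G : Type} [Group G]
    (h : ∀ g : G, g ≠ 1 → ∃ (H : Type) (_ : Group H) (f : G →* H), X H ∧ f g ≠ 1) : X G := by
  choose H iH f hf hg using h
  let H' : {g : G // g ≠ 1} → Type := fun g => H g.1 g.2
  let _ : ∀ i, Group (H' i) := fun g => iH g.1 g.2
  let F : G →* (∀ i, H' i) :=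
    { toFun := fun x i => f i.1 i.2 x
      map_one' := by funext i; exact map_one _
      map_mul' := by intro x y; funext i; exact map_mul _ _ _ }
  refine hX.inj F ?_ (hX.pi H' (fun i => hf i.1 i.2))
  rw [injective_iff_map_eq_one]
  intro g hg1
  by_contra hne
  exact hg g hne (congrFun hg1 ⟨g, hne⟩)

lemma Closed.prod {X : Cls} (hX : Closed 𝒰 X) {G H : Type} [Group G] [Group H] (hG : X G) (hH : X H) :
    X (G × H) := by
  apply hX.sep
  rintro ⟨a, b⟩ hab
  by_cases ha : a = 1
  · refine ⟨H, inferInstance, MonoidHom.snd G H, hH, ?_⟩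
    intro hb
    apply hab
    simp only [MonoidHom.coe_snd] at hb
    rw [ha, hb]; rfl
  · exact ⟨G, inferInstance, MonoidHom.fst G H, hG, ha⟩

end Pool.Agent.Y35.PV.QV
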