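import Mathlib
import Pool.Agent.Y35.PV.QV.Cls

set_option autoImplicit false

namespace Pool.Agent.Y35.PV.QV

variable {𝒰 : FF}

/-- The `X`-residual: the elements killed by all homomorphisms to members of `X`. -/
def res (X : Cls) (G : Type) [Group G] : Subgroup G where
  carrier := {g | ∀ (H : Type) [Group H], X H → ∀ f : G →* H, f g = 1}
  one_mem' := by intro H _ _ f; exact map_one f
  mul_mem' := by intro a b ha hb H _ hH f; rw [map_mul, ha H hH f, hb H hH f, mul_one]
  inv_mem' := by intro a ha H _ hH f; rw [map_inv, ha H hH f, inv_one]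

lemma mem_res {X : Cls} {G : Type} [Group G] {g : G} :
    g ∈ res X G ↔ ∀ (H : Type) [Group H], X H → ∀ f : G →* H, f g = 1 := Iff.rfl

instance (X : Cls) (G : Type) [Group G] : (res X G).Normal where
  conj_mem := by
    intro n hn g H _ hH f
    rw [map_mul, map_mul, hn H hH f, mul_one, map_inv, mul_inv_cancel]

lemma map_res {X : Cls} {G H : Type} [Group G] [Group H] (f : G →* H) {g : G} (hg : g ∈ res X G) :
    f g ∈ res X H := fun K _ hK h => hg K hK (h.comp f)

lemma res_eq_one {X : Cls} {G : Type} [Group G] (hG : X G) {g : G} (hg : g ∈ res X G) : g = 1 :=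
  hg G hG (MonoidHom.id G)

lemma res_anti {X Y : Cls} (h : ∀ (G : Type) [Group G], X G → Y G) (G : Type) [Group G] :
    res Y G ≤ res X G := fun _ hg H _ hH f => hg H (h H hH) f

lemma Closed.of_res {X : Cls} (hX : Closed 𝒰 X) {G : Type} [Group G]
    (h : ∀ g ∈ res X G, g = 1) : X G := by
  apply hX.sep
  intro g hg
  by_contra hcon
  push Not at hcon
  apply hg
  apply h
  intro H iH hH f
  exact hcon H iH f hH

lemma Closed.quot_res {X : Cls} (hX : Closed 𝒰 X) (G : Type) [Group G] : X (G ⧸ res X G) := by
  apply hX.sep
  intro g
  induction g using QuotientGroup.induction_on with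
  | _ g =>
    intro hg
    have h1 : g ∉ res X G := fun h => hg ((QuotientGroup.eq_one_iff _).2 h)
    rw [mem_res] at h1
    push Not at h1
    obtain ⟨H, iH, hH, f, hf⟩ := h1
    refine ⟨H, iH, QuotientGroup.lift (res X G) f (fun a ha => ha H hH f), hH, ?_⟩
    exact hf

/-- The product of two classes. -/
def mulCls (X Y : Cls) : Cls := fun G _ => ∃ (N : Subgroup G) (_ : N.Normal), X N ∧ Y (G ⧸ N)

lemma res_le_of_quot {Y : Cls} {G : Type} [Group G] (N : Subgroup G) [N.Normal]
    (h : Y (G ⧸ N)) : res Y G ≤ N := by
  intro g hg
  have h1 := hg (G ⧸ N) h (QuotientGroup.mk' N)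
  exact (QuotientGroup.eq_one_iff _).1 h1

lemma mulCls_iff {X Y : Cls} (hX : Closed 𝒰 X) (hY : Closed 𝒰 Y) {G : Type} [Group G] :
    mulCls X Y G ↔ X (res Y G) := by
  constructor
  · rintro ⟨N, hN, h1, h2⟩
    exact hX.inj (Subgroup.inclusion (res_le_of_quot N h2)) (Subgroup.inclusion_injective _) h1
  · intro h
    exact ⟨res Y G, inferInstance, h, hY.quot_res G⟩

lemma mulCls_of_hom {X Y : Cls} (hX : Closed 𝒰 X) (hY : Closed 𝒰 Y) {G H : Type} [Group G] [Group H]
    (f : G →* H) (hH : Y H) (hker : X f.ker) : mulCls X Y G := by
  rw [mulCls_iff hX hY]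
  refine hX.inj (Subgroup.inclusion (fun g hg => ?_)) (Subgroup.inclusion_injective _) hker
  exact hg H hH f

lemma closed_mulCls {X Y : Cls} (hX : Closed 𝒰 X) (hY : Closed 𝒰 Y) : Closed 𝒰 (mulCls X Y) := by
  refine ⟨?_, ?_, ?_⟩
  · intro G H _ _ f hf hG
    rw [mulCls_iff hX hY] at *
    refine hX.inj ((f.comp (res Y H).subtype).codRestrict (res Y G) (fun x => map_res f x.2)) ?_ hG
    intro a b hab
    apply Subtype.ext
    apply hf
    exact congrArg Subtype.val hab
  · intro ι G _ hG
    simp only [mulCls_iff hX hY] at *
    have h1 := hX.pi (fun i => res Y (G i)) hG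
    let F : res Y (∀ i, G i) →* (∀ i, res Y (G i)) :=
      { toFun := fun x i => ⟨x.1 i, map_res (Pi.evalMonoidHom G i) x.2⟩
        map_one' := rfl
        map_mul' := fun x y => rfl }
    refine hX.inj F ?_ h1
    intro a b hab
    apply Subtype.ext
    funext i
    exact congrArg Subtype.val (congrFun hab i)
  · intro ι U hU G _ hG
    simp only [mulCls_iff hX hY] at *
    have h1 := hX.up U hU (fun i => res Y (G i)) hG
    -- the map between ultraproducts
    let J : UP U (fun i => res Y (G i)) →* UP U G :=
      QuotientGroup.map _ _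
        { toFun := fun x i => (x i).1
          map_one' := rfl
          map_mul' := fun x y => rfl } (by
          intro x hx
          rw [Subgroup.mem_comap, mem_upKer]
          rw [mem_upKer] at hx
          filter_upwards [hx] with i hi
          exact congrArg Subtype.val hi)
    have hJ : Function.Injective J := by
      rw [injective_iff_map_eq_one]
      intro x
      induction x using QuotientGroup.induction_on with
      | _ x =>
        intro hx
        have h2 : (fun i => (x i).1 : ∀ i, G i) ∈ upKer U G := (QuotientGroup.eq_one_iff _).1 hx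
        rw [mem_upKer] at h2
        refine (QuotientGroup.eq_one_iff _).2 ?_
        rw [mem_upKer]
        filter_upwards [h2] with i hi
        exact Subtype.ext hi
    refine hX.of_le_range J hJ h1 ?_
    intro g
    induction g using QuotientGroup.induction_on with
    | _ g =>
      intro hg
      -- the projection to the ultraproduct of the quotients
      let P : UP U G →* UP U (fun i => G i ⧸ res Y (G i)) :=
        QuotientGroup.map _ _
          { toFun := fun x i => QuotientGroup.mk' (res Y (G i)) (x i)
            map_one' := by funext i; exact map_one _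
            map_mul' := fun x y => by funext i; exact map_mul _ _ _ } (by
            intro x hx
            rw [Subgroup.mem_comap, mem_upKer]
            rw [mem_upKer] at hx
            filter_upwards [hx] with i hi
            simp [hi])
      have h2 : P (g : UP U G) = 1 := hg _ (hY.up U hU _ (fun i => hY.quot_res (G i))) P
      have h3 : (fun i => QuotientGroup.mk' (res Y (G i)) (g i)) ∈
          upKer U (fun i => G i ⧸ res Y (G i)) := (QuotientGroup.eq_one_iff _).1 h2
      rw [mem_upKer] at h3
      classical
      refine ⟨QuotientGroup.mk' _ (fun i => if h : g i ∈ res Y (G i) then ⟨g i, h⟩ else 1), ?_⟩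
      have h4 : (fun i => ((if h : g i ∈ res Y (G i) then (⟨g i, h⟩ : res Y (G i)) else 1) :
          res Y (G i)).1 : ∀ i, G i)⁻¹ * g ∈ upKer U G := by
        rw [mem_upKer]
        filter_upwards [h3] with i hi
        have h5 : g i ∈ res Y (G i) := (QuotientGroup.eq_one_iff _).1 hi
        simp [h5]
      exact QuotientGroup.eq.2 h4

/-- the class of trivial groups -/
def oneCls : Cls := fun G _ => ∀ g : G, g = 1

lemma closed_oneCls : Closed 𝒰 oneCls := by
  refine ⟨?_, ?_, ?_⟩
  · intro G H _ _ f hf hG h
    apply hf
    rw [map_one]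
    exact hG _
  · intro ι G _ hG g
    funext i
    exact hG i _
  · intro ι U hU G _ hG g
    induction g using QuotientGroup.induction_on with
    | _ g =>
      refine (QuotientGroup.eq_one_iff _).2 ?_
      rw [mem_upKer]
      exact Filter.Eventually.of_forall (fun i => hG i _)

lemma one_mulCls {X : Cls} (hX : Closed 𝒰 X) {G : Type} [Group G] : mulCls oneCls X G ↔ X G := by
  rw [mulCls_iff closed_oneCls hX]
  constructor
  · intro h
    apply hX.of_res
    intro g hg
    exact congrArg Subtype.val (h ⟨g, hg⟩)
  · intro h g
    exact Subtype.ext (res_eq_one h g.2)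

lemma mulCls_one {X : Cls} (hX : Closed 𝒰 X) {G : Type} [Group G] : mulCls X oneCls G ↔ X G := by
  rw [mulCls_iff hX closed_oneCls]
  have h1 : ∀ g : G, g ∈ res oneCls G := fun g H _ hH f => hH _
  constructor
  · intro h
    refine hX.inj (MonoidHom.codRestrict (MonoidHom.id G) (res oneCls G) h1) ?_ h
    intro a b hab
    exact congrArg Subtype.val hab
  · intro h
    exact hX.subgroup h _

lemma mulCls_assoc {X Y Z : Cls} (hX : Closed 𝒰 X) (hY : Closed 𝒰 Y) (hZ : Closed 𝒰 Z) {G : Type}
    [Group G] : mulCls (mulCls X Y) Z G ↔ mulCls X (mulCls Y Z) G := by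
  have hXY := closed_mulCls hX hY
  have hYZ := closed_mulCls hY hZ
  rw [mulCls_iff hXY hZ, mulCls_iff hX hY, mulCls_iff hX hYZ]
  -- the two residuals agree
  have key : ∀ g : G, g ∈ res (mulCls Y Z) G ↔ ∃ h : g ∈ res Z G, (⟨g, h⟩ : res Z G) ∈
      res Y (res Z G) := by
    intro g
    constructor
    · intro hg
      -- the normal subgroup
      let M : Subgroup G := (res Y (res Z G)).map (res Z G).subtype
      have hM : M.Normal := by
        constructor
        rintro _ ⟨x, hx, rfl⟩ g
        refine ⟨⟨g * x.1 * g⁻¹, (inferInstance : (res Z G).Normal).conj_mem _ x.2 g⟩, ?_, rfl⟩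
        let c : res Z G →* res Z G :=
          { toFun := fun y => ⟨g * y.1 * g⁻¹, (inferInstance : (res Z G).Normal).conj_mem _ y.2 g⟩
            map_one' := by apply Subtype.ext; simp
            map_mul' := by intro a b; apply Subtype.ext; simp }
        exact map_res c hx
      have h1 : mulCls Y Z (G ⧸ M) := by
        let f : G ⧸ M →* G ⧸ res Z G := QuotientGroup.map M (res Z G) (MonoidHom.id G) (by
          rintro _ ⟨x, _, rfl⟩
          exact x.2)
        refine mulCls_of_hom hY hZ f (hZ.quot_res G) ?_
        apply hY.sep
        rintro ⟨x, hx⟩ hne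
        induction x using QuotientGroup.induction_on with
        | _ x =>
          have hx1 : x ∈ res Z G := (QuotientGroup.eq_one_iff _).1 hx
          have hx2 : (⟨x, hx1⟩ : res Z G) ∉ res Y (res Z G) := by
            intro hmem
            apply hne
            apply Subtype.ext
            exact (QuotientGroup.eq_one_iff _).2 ⟨⟨x, hx1⟩, hmem, rfl⟩
          -- the kernel is a quotient of the residual
          let p : res Z G →* f.ker :=
            { toFun := fun y => ⟨QuotientGroup.mk' M y.1, (QuotientGroup.eq_one_iff _).2 y.2⟩
              map_one' := by apply Subtype.ext; simp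
              map_mul' := by intro a b; apply Subtype.ext; simp }
          have hp : Function.Surjective p := by
            rintro ⟨y, hy⟩
            induction y using QuotientGroup.induction_on with
            | _ y =>
              exact ⟨⟨y, (QuotientGroup.eq_one_iff _).1 hy⟩, rfl⟩
          have hpk : p.ker = res Y (res Z G) := by
            ext y
            rw [MonoidHom.mem_ker]
            constructor
            · intro h
              have h2 : QuotientGroup.mk' M y.1 = 1 := congrArg Subtype.val h
              obtain ⟨z, hz, hzy⟩ := (QuotientGroup.eq_one_iff _).1 h2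
              have : z = y := Subtype.ext hzy
              rwa [this] at hz
            · intro h
              apply Subtype.ext
              exact (QuotientGroup.eq_one_iff _).2 ⟨y, h, rfl⟩
          have e : f.ker ≃* (res Z G) ⧸ p.ker := (QuotientGroup.quotientKerEquivOfSurjective p hp).symm
          have hYk : Y ((res Z G) ⧸ p.ker) := by
            have h3 := hY.quot_res (res Z G)
            exact hY.iso (QuotientGroup.quotientMulEquivOfEq hpk) h3
          refine ⟨f.ker, inferInstance, MonoidHom.id _, hY.iso e hYk, ?_⟩
          exact hne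
      have h2 := res_le_of_quot (Y := mulCls Y Z) M h1 hg
      obtain ⟨y, hy, rfl⟩ := h2
      exact ⟨y.2, hy⟩
    · rintro ⟨h, h'⟩ H _ hH f
      have h1 : Y (res Z H) := (mulCls_iff hY hZ).1 hH
      let f' : res Z G →* res Z H := (f.comp (res Z G).subtype).codRestrict _ (fun x => map_res f x.2)
      have h2 := h' (res Z H) h1 f'
      exact congrArg Subtype.val h2
  constructor
  · intro h
    let F : res (mulCls Y Z) G →* res Y (res Z G) :=
      { toFun := fun x => ⟨⟨x.1, ((key x.1).1 x.2).1⟩, ((key x.1).1 x.2).2⟩
        map_one' := rfl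
        map_mul' := fun x y => rfl }
    refine hX.inj F ?_ h
    intro a b hab
    apply Subtype.ext
    exact congrArg (fun z => z.1.1) hab
  · intro h
    let F : res Y (res Z G) →* res (mulCls Y Z) G :=
      { toFun := fun x => ⟨x.1.1, (key x.1.1).2 ⟨x.1.2, x.2⟩⟩
        map_one' := rfl
        map_mul' := fun x y => rfl }
    refine hX.inj F ?_ h
    intro a b hab
    apply Subtype.ext
    apply Subtype.ext
    exact congrArg (fun z => z.1) hab

end Pool.Agent.Y35.PV.QV
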