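import Mathlib
import Pool.Agent.Y35.PV.QV.Rewr

set_option autoImplicit false

namespace Pool.Agent.Y35.PV.QV

variable {𝒰 : FF}

/-- classes closed under subgroups and products -/
structure SP (X : Cls) : Prop where
  inj : ∀ {G H : Type} [Group G] [Group H] (f : H →* G), Function.Injective f → X G → X H
  pi : ∀ {ι : Type} (G : ι → Type) [∀ i, Group (G i)], (∀ i, X (G i)) → X (∀ i, G i)

lemma Closed.sp {X : Cls} (hX : Closed 𝒰 X) : SP X := ⟨hX.inj, hX.pi⟩

lemma SP.sep {X : Cls} (hX : SP X) {G : Type} [Group G]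
    (h : ∀ g : G, g ≠ 1 → ∃ (H : Type) (_ : Group H) (f : G →* H), X H ∧ f g ≠ 1) : X G := by
  choose H iH f hf hg using h
  let H' : {g : G // g ≠ 1} → Type := fun g => H g.1 g.2
  let _ : ∀ i, Group (H' i) := fun g => iH g.1 g.2
  let F : G →* (∀ i, H' i) :=
    { toFun := fun x i => f i.1 i.2 x
      map_one' := by funext i; exact map_one _
      map_mul' := by intro x y; funext i; exact map_mul _ _ _ }
  refine hX.inj F ?_ (hX.pi H' (fun i => hf i.1 i.2))
  rw [injective_iff_map_eq_one]
  intro g hg1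
  by_contra hne
  exact hg g hne (congrFun hg1 ⟨g, hne⟩)

/-- The restricted wreath product with an abelian base group. -/
def Rw (A : Type) [AddCommGroup A] (T : Type) [Group T] : Subgroup (Wr (Multiplicative A) T) where
  carrier := {x | {t | x.f t ≠ 1}.Finite}
  one_mem' := by
    have : {t : T | (1 : Wr (Multiplicative A) T).f t ≠ 1} = ∅ := by ext; simp
    change {t : T | (1 : Wr (Multiplicative A) T).f t ≠ 1}.Finite
    rw [this]; exact Set.finite_empty
  mul_mem' := by
    intro a b ha hb
    change {t : T | (a * b).f t ≠ 1}.Finite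
    have hb' : ((fun t => a.t⁻¹ * t) ⁻¹' {t | b.f t ≠ 1}).Finite :=
      Set.Finite.preimage (fun x _ y _ h => mul_left_cancel h) hb
    refine (Set.Finite.union ha hb').subset ?_
    intro t ht
    by_contra hcon
    apply ht
    rw [Set.mem_union, not_or] at hcon
    have h1 : a.f t = 1 := by
      by_contra h; exact hcon.1 h
    have h2 : b.f (a.t⁻¹ * t) = 1 := by
      by_contra h; exact hcon.2 h
    rw [Wr.mul_f, h1, h2, one_mul]
  inv_mem' := by
    intro a ha
    change {t : T | (a⁻¹).f t ≠ 1}.Finite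
    have ha' : ((fun t => a.t * t) ⁻¹' {t | a.f t ≠ 1}).Finite :=
      Set.Finite.preimage (fun x _ y _ h => mul_left_cancel h) ha
    refine ha'.subset ?_
    intro t ht h
    apply ht
    rw [Wr.inv_f, h, inv_one]

lemma mem_Rw {A : Type} [AddCommGroup A] {T : Type} [Group T] {x : Wr (Multiplicative A) T} :
    x ∈ Rw A T ↔ {t | x.f t ≠ 1}.Finite := Iff.rfl

section noid

variable {T : Type} [Group T] {A : Type} [AddCommGroup A]

lemma eval_one (a : ℕ) (π : FreeGroup ℕ →* T) (Φ : FreeGroup ℕ →* Wr (Multiplicative A) T)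
    (ht : ∀ i, (Φ (FreeGroup.of i)).t = π (FreeGroup.of i))
    (h1 : ∀ i, i ≠ a → ∀ x, (Φ (FreeGroup.of i)).f x = 1)
    (h2 : ∀ x, x ≠ 1 → (Φ (FreeGroup.of a)).f x = 1)
    (l : List (ℕ × Bool)) (x : T)
    (hx : ∀ l₁ l₂, l = l₁ ++ (a, true) :: l₂ → π (FreeGroup.mk l₁) ≠ x)
    (hx' : ∀ l₁ l₂, l = l₁ ++ (a, false) :: l₂ → π (FreeGroup.mk (l₁ ++ [(a, false)])) ≠ x) :
    (Φ (FreeGroup.mk l)).f x = 1 := by
  induction l generalizing x with
  | nil => simp [mk_nil]
  | cons p l ih =>
    obtain ⟨i, b⟩ := p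
    cases b
    · rw [mk_cons_false, map_mul, map_inv, Wr.mul_f, Wr.inv_t, inv_inv, ht, Wr.inv_f, ht]
      have e1 : (Φ (FreeGroup.of i)).f (π (FreeGroup.of i) * x) = 1 := by
        by_cases hi : i = a
        · subst hi
          apply h2
          intro h
          apply hx' [] l rfl
          rw [List.nil_append, mk_cons_false, mk_nil, mul_one, map_inv]
          exact (eq_inv_of_mul_eq_one_right h).symm
        · exact h1 i hi _
      rw [e1, inv_one, one_mul]
      apply ih
      · intro l₁ l₂ hl h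
        apply hx ((i, false) :: l₁) l₂ (by rw [hl]; rfl)
        rw [mk_cons_false, map_mul, map_inv, h]
        group
      · intro l₁ l₂ hl h
        apply hx' ((i, false) :: l₁) l₂ (by rw [hl]; rfl)
        rw [List.cons_append, mk_cons_false, map_mul, map_inv, h]
        group
    · rw [mk_cons_true, map_mul, Wr.mul_f, ht]
      have e1 : (Φ (FreeGroup.of i)).f x = 1 := by
        by_cases hi : i = a
        · subst hi
          apply h2
          intro h
          apply hx [] l rfl
          rw [mk_nil, map_one, h]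
        · exact h1 i hi _
      rw [e1, one_mul]
      apply ih
      · intro l₁ l₂ hl h
        apply hx ((i, true) :: l₁) l₂ (by rw [hl]; rfl)
        rw [mk_cons_true, map_mul, h]
        group
      · intro l₁ l₂ hl h
        apply hx' ((i, true) :: l₁) l₂ (by rw [hl]; rfl)
        rw [List.cons_append, mk_cons_true, map_mul, h]
        group

end noid

/-- the identities of a class as a subgroup -/
def idSub (X : Cls) : Subgroup (FreeGroup ℕ) where
  carrier := {w | Sat X w}
  one_mem' := by intro G _ _ φ; exact map_one φ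
  mul_mem' := by intro a b ha hb G _ hG φ; rw [map_mul, ha G hG φ, hb G hG φ, mul_one]
  inv_mem' := by intro a ha G _ hG φ; rw [map_inv, ha G hG φ, inv_one]

instance (X : Cls) : (idSub X).Normal where
  conj_mem := by
    intro n hn g G _ hG φ
    rw [map_mul, map_mul, hn G hG φ, mul_one, map_inv, mul_inv_cancel]

lemma SP.rel_free {X : Cls} (hX : SP X) : X (FreeGroup ℕ ⧸ idSub X) := by
  apply hX.sep
  intro g
  induction g using QuotientGroup.induction_on with
  | _ g =>
    intro hg
    have h1 : g ∉ idSub X := fun h => hg ((QuotientGroup.eq_one_iff _).2 h)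
    have h2 : ¬ Sat X g := h1
    unfold Sat at h2
    push Not at h2
    obtain ⟨H, iH, hH, f, hf⟩ := h2
    exact ⟨H, iH, QuotientGroup.lift (idSub X) f (fun a ha => ha H hH f), hH, hf⟩

lemma Sat.flh {X : Cls} (a : ℕ) (w : FreeGroup ℕ) (h : Sat X w) : Sat X (flh a w) :=
  fun G _ hG φ => h G hG (φ.comp (QV.flh a))

/-- shortest identities -/
lemma exists_min {X : Cls} {w : FreeGroup ℕ} (hw : w ≠ 1) (h : Sat X w) :
    ∃ l : List (ℕ × Bool), FreeGroup.mk l ≠ 1 ∧ Sat X (FreeGroup.mk l) ∧
      ∀ l' : List (ℕ × Bool), l'.length < l.length → Sat X (FreeGroup.mk l') →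
        FreeGroup.mk l' = 1 := by
  classical
  have hex : ∃ n, ∃ l : List (ℕ × Bool), l.length = n ∧ FreeGroup.mk l ≠ 1 ∧
      Sat X (FreeGroup.mk l) := ⟨w.toWord.length, w.toWord, rfl, by rwa [FreeGroup.mk_toWord],
        by rwa [FreeGroup.mk_toWord]⟩
  obtain ⟨l, hl, hl1, hl2⟩ := Nat.find_spec hex
  refine ⟨l, hl1, hl2, fun l' hl' hs => ?_⟩
  by_contra hne
  rw [hl] at hl'
  exact Nat.find_min hex hl' ⟨l', rfl, hne, hs⟩

/-- A class closed under subgroups, products and restricted wreath products with a fixed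
non-trivial abelian base group satisfies no non-trivial identity. -/
theorem no_identity {X : Cls} (hX : SP X) (A : Type) [AddCommGroup A] {q : A} (hq : q ≠ 0)
    (hW : ∀ (T : Type) [Group T], X T → X (Rw A T)) {w : FreeGroup ℕ} (hw : w ≠ 1) :
    ¬ Sat X w := by
  classical
  intro hsat
  obtain ⟨l₀, hl₀, hs₀, hmin₀⟩ := exists_min hw hsat
  obtain ⟨a, l, hlen, hl, hs⟩ := exists_pos (P := Sat X) (fun a w h => h.flh a) l₀ hl₀ hs₀
  have hmin : ∀ l' : List (ℕ × Bool), l'.length < ((a, true) :: l).length →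
      Sat X (FreeGroup.mk l') → FreeGroup.mk l' = 1 := by
    intro l' h1 h2
    apply hmin₀ l' _ h2
    rw [← hlen]
    simpa using h1
  let T : Type := FreeGroup ℕ ⧸ idSub X
  let π : FreeGroup ℕ →* T := QuotientGroup.mk' (idSub X)
  have hπ : ∀ w, π w = 1 → Sat X w := fun w h => (QuotientGroup.eq_one_iff _).1 h
  let y : ℕ → Wr (Multiplicative A) T := fun i =>
    if i = a then ⟨fun x => if x = 1 then Multiplicative.ofAdd q else 1, π (FreeGroup.of i)⟩
    else ⟨fun _ => 1, π (FreeGroup.of i)⟩
  have hy : ∀ i, y i ∈ Rw A T := by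
    intro i
    rw [mem_Rw]
    by_cases hi : i = a
    · refine (Set.finite_singleton (1 : T)).subset ?_
      intro x hx
      by_contra hne
      apply hx
      simp only [y, if_pos hi]
      rw [if_neg (show ¬ x = 1 from hne)]
    · have : {t | (y i).f t ≠ 1} = ∅ := by
        ext x; simp [y, hi]
      rw [this]; exact Set.finite_empty
  let Φ : FreeGroup ℕ →* Rw A T := FreeGroup.lift fun i => ⟨y i, hy i⟩
  let Φ' : FreeGroup ℕ →* Wr (Multiplicative A) T := (Rw A T).subtype.comp Φ
  have hΦ : ∀ i, Φ' (FreeGroup.of i) = y i := by intro i; simp [Φ', Φ]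
  have hval : (Φ' (FreeGroup.mk l)).f ((π (FreeGroup.of a))⁻¹) = 1 := by
    apply eval_one a π Φ'
    · intro i
      rw [hΦ]
      by_cases hi : i = a <;> simp [y, hi]
    · intro i hi x
      rw [hΦ]
      simp [y, hi]
    · intro x hx
      rw [hΦ]
      simp only [y, if_true]
      rw [if_neg hx]
    · intro l₁ l₂ hl12 h
      have h1 : π (FreeGroup.mk ((a, true) :: l₁)) = 1 := by
        rw [mk_cons_true, map_mul, h, mul_inv_cancel]
      have h2 := hmin ((a, true) :: l₁) (by rw [hl12]; simp) (hπ _ h1)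
      have h3 : FreeGroup.mk ((a, true) :: l) = FreeGroup.mk ((a, true) :: l₂) := by
        rw [hl12, ← List.cons_append, mk_append, h2, one_mul]
      have h4 := hmin ((a, true) :: l₂) (by rw [hl12]; simp) (by rw [← h3]; exact hs)
      rw [← h3] at h4
      exact hl h4
    · intro l₁ l₂ hl12 h
      have h1 : π (FreeGroup.mk ((a, true) :: (l₁ ++ [(a, false)]))) = 1 := by
        rw [mk_cons_true, map_mul, h, mul_inv_cancel]
      by_cases hl2 : l₂ = []
      · subst hl2
        have h5 : FreeGroup.mk ((a, true) :: l) =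
            FreeGroup.of a * FreeGroup.mk l₁ * (FreeGroup.of a)⁻¹ := by
          rw [hl12, mk_cons_true, mk_append, mk_cons_false, mk_nil, mul_one, mul_assoc]
        have h6 : Sat X (FreeGroup.mk l₁) := by
          intro G _ hG φ
          have h7 := hs G hG φ
          rw [h5, map_mul, map_mul, map_inv] at h7
          rw [mul_inv_eq_one] at h7
          exact mul_eq_left.1 h7
        have h8 := hmin l₁ (by rw [hl12]; simp) h6
        rw [h8, mul_one, mul_inv_cancel] at h5
        exact hl h5
      · have hpos : 0 < l₂.length := List.length_pos_iff.2 hl2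
        have h2 := hmin ((a, true) :: (l₁ ++ [(a, false)])) (by
          rw [hl12]; simp; omega) (hπ _ h1)
        have h3 : FreeGroup.mk ((a, true) :: l) = FreeGroup.mk l₂ := by
          have e : (a, true) :: l = ((a, true) :: (l₁ ++ [(a, false)])) ++ l₂ := by
            rw [hl12]; simp
          rw [e, mk_append, h2, one_mul]
        have h4 := hmin l₂ (by rw [hl12]; simp; omega) (by rw [← h3]; exact hs)
        rw [← h3] at h4
        exact hl h4
  have hTX : X T := hX.rel_free
  have hone := hs (Rw A T) (hW T hTX) Φ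
  have h1 : (Φ' (FreeGroup.mk ((a, true) :: l))).f 1 = 1 := by
    have : Φ' (FreeGroup.mk ((a, true) :: l)) = 1 := by
      change ((Φ (FreeGroup.mk ((a, true) :: l))) : Wr (Multiplicative A) T) = 1
      rw [hone]; rfl
    rw [this, Wr.one_f]
  rw [mk_cons_true, map_mul, Wr.mul_f, hΦ] at h1
  have h2 : (y a).t = π (FreeGroup.of a) := by simp [y]
  have h3 : (y a).f 1 = Multiplicative.ofAdd q := by simp [y]
  rw [h2, h3, mul_one, hval, mul_one] at h1
  exact hq h1

end Pool.Agent.Y35.PV.QV
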