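import Mathlib
import Pool.Agent.Y35.PV.QV.LemA

set_option autoImplicit false

namespace Pool.Agent.Y35.PV.QV

variable {𝒰 : FF}

open Classical in
/-- the embedding of `N` onto the diagonal of a subset of the base group -/
noncomputable def dg {N C : Type} [Group N] [Group C] (D : Set C) (n : N) : Wr N C :=
  Wr.base (fun c => if c ∈ D then n else 1)

lemma dg_mul {N C : Type} [Group N] [Group C] (D : Set C) (a b : N) :
    dg D (a * b) = dg D a * dg D b := by
  classical
  ext c
  · by_cases hc : c ∈ D <;> simp [dg, hc]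
  · simp [dg]

lemma dg_one {N C : Type} [Group N] [Group C] (D : Set C) : dg D (1 : N) = 1 := by
  ext c <;> simp [dg]

lemma dg_inj {N C : Type} [Group N] [Group C] {D : Set C} (hD : D.Nonempty) {a b : N}
    (h : dg D a = dg D b) : a = b := by
  classical
  obtain ⟨c, hc⟩ := hD
  have := congrArg (fun z => z.f c) h
  simpa [dg, hc] using this

/-- the distinguished element of the wreath product of the integers -/
noncomputable def ex {C : Type} [Group C] (D : Set C) : Wr (Multiplicative ℤ) C :=
  bz (D.indicator fun _ => (1 : ℤ))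

lemma ex_map {N C : Type} [Group N] [Group C] (D : Set C) (n : N) :
    Wr.mapL (zpowersHom N n) (ex D) = dg D n := by
  classical
  ext c
  · by_cases hc : c ∈ D <;> simp [ex, bz, dg, hc, zpowersHom]
  · simp [ex, bz, dg]

/-- A pair `C, D` with the property of Lemma A. -/
def Pr (Y : Cls) (C : Type) [Group C] (D : Set C) : Prop :=
  Y C ∧ D.Nonempty ∧ ex D ∈ res Y (Wr (Multiplicative ℤ) C)

lemma exists_pr {Y : Cls} (hY : Closed 𝒰 Y) {w : FreeGroup ℕ} (hw : w ≠ 1) (hs : Sat Y w) :
    ∃ (C : Type) (_ : Group C) (D : Set C), Pr Y C D := by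
  obtain ⟨C, iC, D, h1, h2, h3⟩ := good_one hY hw hs
  exact ⟨C, iC, D, h1, h2, h3⟩

lemma dg_mem {Y : Cls} {C : Type} [Group C] {D : Set C} (h : Pr Y C D) {N : Type} [Group N]
    (n : N) : dg D n ∈ res Y (Wr N C) := by
  rw [← ex_map]
  exact map_res _ h.2.2

open Classical in
/-- the embedding of Lemma B -/
noncomputable def lb (N : Type) [Group N] (G : Type) [Group G] {C : Type} [Group C] (D : Set C) :
    Wr N G →* Wr N (G × C) where
  toFun x := ⟨fun p => if p.2 ∈ D then x.f p.1 else 1, (x.t, 1)⟩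
  map_one' := by ext <;> simp
  map_mul' := by
    intro x y
    ext p
    · by_cases hp : p.2 ∈ D <;> simp [hp]
    · simp
    · simp

lemma lb_inj (N : Type) [Group N] (G : Type) [Group G] {C : Type} [Group C] {D : Set C}
    (hD : D.Nonempty) : Function.Injective (lb N G D) := by
  classical
  intro x y hxy
  obtain ⟨c, hc⟩ := hD
  ext g
  · have := congrArg (fun z => z.f (g, c)) hxy
    simpa [lb, hc] using this
  · exact congrArg (fun z => z.t.1) hxy

lemma lb_mem {Y : Cls} {C : Type} [Group C] {D : Set C} (h : Pr Y C D) {N : Type} [Group N]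
    {G : Type} [Group G] {x : Wr N G} (hx : x ∈ Wr.ovr N (res Y G)) :
    lb N G D x ∈ res Y (Wr N (G × C)) := by
  classical
  have h1 : lb N G D (Wr.base x.f) ∈ res Y (Wr N (G × C)) := by
    let Θ : Wr (Multiplicative ℤ) C →* Wr N (G × C) :=
      { toFun := fun z => ⟨fun p => zpowersHom N (x.f p.1) (z.f p.2), (1, z.t)⟩
        map_one' := by ext <;> simp
        map_mul' := by
          intro z z'
          ext p
          · simp only [Wr.mul_f, map_mul, Prod.inv_mk, inv_one, Prod.fst_mul, Prod.snd_mul, one_mul]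
          · simp
          · simp }
    have h2 := map_res Θ h.2.2
    have h3 : Θ (ex D) = lb N G D (Wr.base x.f) := by
      ext p
      · by_cases hp : p.2 ∈ D <;> simp [Θ, ex, bz, lb, hp, zpowersHom]
      · simp [Θ, ex, bz, lb]
      · simp [Θ, ex, bz, lb]
    rwa [h3] at h2
  have h2 : lb N G D (Wr.top N x.t) ∈ res Y (Wr N (G × C)) := by
    have h3 := map_res ((Wr.top N (G := G × C)).comp (MonoidHom.inl G C)) (Wr.mem_ovr.1 hx)
    have h4 : ((Wr.top N (G := G × C)).comp (MonoidHom.inl G C)) x.t = lb N G D (Wr.top N x.t) := by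
      ext p <;> simp [lb]
    rwa [h4] at h3
  rw [Wr.eq_base_mul_top x, map_mul]
  exact Subgroup.mul_mem _ h1 h2

/-- Lemma B: membership of overgroups. -/
lemma ovr_mem {X Y X' Y' : Cls} (hX : Closed 𝒰 X) (hY : Closed 𝒰 Y) (hX' : Closed 𝒰 X')
    (hY' : Closed 𝒰 Y') (hXY : ∀ (G : Type) [Group G], mulCls X Y G ↔ mulCls X' Y' G)
    (hle : ∀ (G : Type) [Group G], Y G → Y' G) {C : Type} [Group C] {D : Set C} (h : Pr Y C D)
    {N G : Type} [Group N] [Group G] (hN : X' N) (hG : Y' G) : X (Wr.ovr N (res Y G)) := by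
  have h1 : mulCls X' Y' (Wr N (G × C)) := wr_mem hX' hY' hN (hY'.prod hG (hle C h.1))
  rw [← hXY, mulCls_iff hX hY] at h1
  refine hX.inj (((lb N G D).comp (Wr.ovr N (res Y G)).subtype).codRestrict
    (res Y (Wr N (G × C))) (fun x => lb_mem h x.2)) ?_ h1
  intro a b hab
  apply Subtype.ext
  apply lb_inj N G h.2.1
  exact congrArg Subtype.val hab

end Pool.Agent.Y35.PV.QV
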