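import Mathlib
import Pool.Agent.Y35.PV.QV.Eq
import Pool.Agent.Y35.PV.QV.Ide

set_option autoImplicit false

namespace Pool.Agent.Y35.PV.QV

variable {𝒰 : FF}

open scoped commutatorElement

section main

variable {G : Type} [Group G] {k : G}

/-- special elements of the wreath product -/
def sg (N : Type) [Group N] (k : G) (a : ℕ) (F : ℕ → G × G → N) (j : ℕ) : Wr N (G × G) :=
  ⁅Wr.base (F j), Wr.top N (k, (1 : G))⁆ * (if j = a then (Wr.top N ((1 : G), k))⁻¹ else 1)

/-- the homomorphism used for the evaluation -/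
lemma exists_psi' (hk : k ≠ 1) (a : ℕ) {N : Type} [Group N]
    (ν : FreeGroup (Let (orderOf k)) →* N) :
    ∃ F : ℕ → G × G → N, ∀ (l : List (ℕ × Bool)) (j : ZMod (orderOf k)),
    (FreeGroup.lift (sg N k a F) (FreeGroup.mk l)).f (1, kp k j) =
      ν (FreeGroup.mk (walk a j l)) ∧
    (FreeGroup.lift (sg N k a F) (FreeGroup.mk l)).t = (1, kp k j * (kp k (endp a j l))⁻¹) := by
  classical
  let v : ℕ → ZMod (orderOf k) → N := fun i j =>
    if i = a then (if j = -1 then ν (FreeGroup.of none) else 1) else ν (FreeGroup.of (some (i, j)))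
  let F : ℕ → G × G → N := fun i p =>
    if h : p.1 = 1 ∧ ∃ j, kp k j = p.2 then v i h.2.choose else 1
  have hF : ∀ i j, F i (1, kp k j) = v i j := by
    intro i j
    have h : ((1 : G), kp k j).1 = 1 ∧ ∃ j', kp k j' = ((1 : G), kp k j).2 := ⟨rfl, j, rfl⟩
    simp only [F, dif_pos h]
    congr 1
    exact kp_inj h.2.choose_spec
  have hF' : ∀ i x, F i (k⁻¹, x) = 1 := by
    intro i x
    have h : ¬ ((k⁻¹, x).1 = (1 : G) ∧ ∃ j', kp k j' = (k⁻¹, x).2) := by
      rintro ⟨h1, _⟩
      exact hk (inv_eq_one.1 h1)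
    simp only [F, dif_neg h]
  refine ⟨F, fun l j => ?_⟩
  have hval : ∀ i j, (sg N k a F i).f (1, kp k j) = v i j := by
    intro i j
    have e : (k, (1 : G))⁻¹ * ((1 : G), kp k j) = (k⁻¹, kp k j) := by simp
    simp only [sg, comm_base_top]
    rw [Wr.mul_f, Wr.base_f, Wr.base_t, hF, e, hF', inv_one, inv_one, one_mul]
    split_ifs
    · rw [Wr.inv_f, Wr.top_f, inv_one, mul_one, mul_one]
    · simp
  refine walk_eval hk a ν (FreeGroup.lift (sg N k a F)) ?_ ?_ ?_ ?_ l j
  · intro i hi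
    simp [sg, comm_base_top, hi]
  · intro i hi j
    rw [FreeGroup.lift_apply_of, hval]
    simp [v, hi]
  · simp [sg, comm_base_top]
  · intro j
    rw [FreeGroup.lift_apply_of, hval]
    simp [v]

/-- The descent lemma for special elements. -/
theorem descent' (𝒩 : Cls) (hne : ∃ (N : Type) (_ : Group N), 𝒩 N) (hk : k ≠ 1) (a : ℕ)
    (l' : List (ℕ × Bool)) (hne' : FreeGroup.mk ((a, true) :: l') ≠ 1)
    (hyp : ∀ (N : Type) [Group N], 𝒩 N → ∀ F : ℕ → G × G → N,
      FreeGroup.lift (sg N k a F) (FreeGroup.mk ((a, true) :: l')) = 1) :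
    ∃ l₀ : List (ℕ × Bool), l₀.length < l'.length + 1 ∧ FreeGroup.mk l₀ ≠ 1 ∧
      Sat 𝒩 (FreeGroup.mk l₀) := by
  have hm : orderOf k ≠ 1 := by rwa [Ne, orderOf_eq_one_iff]
  have hc : Countable (ZMod (orderOf k)) := countable_zmod _
  obtain ⟨e, he⟩ := exists_injective_nat (Let (orderOf k))
  -- the end position is zero
  have hend : endp a (0 : ZMod (orderOf k)) ((a, true) :: l') = 0 := by
    obtain ⟨N, iN, hN⟩ := hne
    obtain ⟨F, hφ⟩ := exists_psi' hk a (1 : FreeGroup (Let (orderOf k)) →* N)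
    have h1 := (hφ ((a, true) :: l') 0).2
    rw [hyp N hN F] at h1
    have h2 : (1 : G) = kp k 0 * (kp k (endp a 0 ((a, true) :: l')))⁻¹ := congrArg Prod.snd h1
    rw [kp_zero, one_mul] at h2
    apply kp_inj
    rw [kp_zero, ← inv_inv (kp k _), ← h2, inv_one]
  refine ⟨(walk a (0 : ZMod (orderOf k)) ((a, true) :: l')).map (fun p => (e p.1, p.2)), ?_, ?_, ?_⟩
  · rw [List.length_map]
    simp only [walk, if_true, if_neg (zero_ne_neg_one hm)]
    have := walk_length a ((0 : ZMod (orderOf k)) + 1) l'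
    omega
  · intro h1
    rw [← FreeGroup.map.mk] at h1
    have h2 : FreeGroup.mk (walk a (0 : ZMod (orderOf k)) ((a, true) :: l')) = 1 := by
      apply FreeGroup.map_injective he
      rw [map_one]
      exact h1
    have h3 := bck_walk a hm ((a, true) :: l') (0 : ZMod (orderOf k))
    rw [h2, hend, rep_zero, zpow_zero, inv_one, mul_one, one_mul, map_one] at h3
    exact hne' h3.symm
  · intro N _ hN ν₀
    obtain ⟨F, hφ⟩ := exists_psi' hk a (ν₀.comp (FreeGroup.map e))
    have h1 := (hφ ((a, true) :: l') 0).1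
    rw [hyp N hN F] at h1
    rw [← FreeGroup.map.mk]
    exact h1.symm

end main

/-- homomorphisms of reduced products -/
def upMap {ι : Type} (U : Filter ι) {G H : ι → Type} [∀ i, Group (G i)] [∀ i, Group (H i)]
    (f : ∀ i, G i →* H i) : UP U G →* UP U H :=
  QuotientGroup.map _ _ (MonoidHom.mk' (fun x i => f i (x i))
      (fun a b => funext fun i => map_mul (f i) _ _)) (by
    intro x hx
    change ∀ᶠ i in U, f i (x i) = 1
    filter_upwards [hx] with i hi
    rw [hi, map_one])

lemma upMap_mk {ι : Type} (U : Filter ι) {G H : ι → Type} [∀ i, Group (G i)] [∀ i, Group (H i)]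
    (f : ∀ i, G i →* H i) (x : ∀ i, G i) :
    upMap U f (QuotientGroup.mk x) = QuotientGroup.mk (fun i => f i (x i)) := rfl

/-- A right factor has the closure properties of the product. -/
theorem right_factor {𝒱 : FF} {X Y : Cls} (hX : Closed 𝒰 X) (hY : Closed 𝒰 Y)
    {w : FreeGroup ℕ} (hw : w ≠ 1) (hs : Sat X w) (hP : Closed 𝒱 (mulCls X Y)) :
    Closed 𝒱 Y := by
  classical
  refine ⟨hY.inj, hY.pi, ?_⟩
  intro ι U hU G _ hG
  obtain ⟨l₀, hl₀, hs₀, hmin₀⟩ := exists_min hw hs
  obtain ⟨a, l', hlen, hl, hsl⟩ := exists_pos (P := Sat X) (fun a w h => h.flh a) l₀ hl₀ hs₀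
  apply hY.of_res
  intro k hk
  by_contra hk1
  obtain ⟨κ, rfl⟩ := QuotientGroup.mk_surjective k
  have hex : ∀ i, ∃ (N : Type) (_ : Group N) (F : ℕ → G i × G i → N), X N ∧ (κ i ≠ 1 →
      FreeGroup.lift (sg N (κ i) a F) (FreeGroup.mk ((a, true) :: l')) ≠ 1) := by
    intro i
    by_contra hcon
    push Not at hcon
    have htriv : X Unit := hX.triv (fun _ => rfl)
    have hki : κ i ≠ 1 := (hcon Unit inferInstance (fun _ _ => ()) htriv).1
    obtain ⟨l₁, h1, h2, h3⟩ := descent' X ⟨Unit, inferInstance, htriv⟩ hki a l' hl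
      (fun N _ hN F => (hcon N inferInstance F hN).2)
    exact h2 (hmin₀ l₁ (by omega) h3)
  choose N iN F hN hF using hex
  let W : ι → Type := fun i => Wr (N i) (G i × G i)
  have hW : mulCls X Y (UP U W) := hP.up U hU W (fun i => wr_mem hX hY (hN i) (hY.prod (hG i) (hG i)))
  rw [mulCls_iff hX hY] at hW
  let y : ℕ → ∀ i, W i := fun j i => sg (N i) (κ i) a (F i) j
  let Ω : FreeGroup ℕ →* (∀ i, W i) := FreeGroup.lift y
  have hΩ : ∀ x i, Ω x i = FreeGroup.lift (sg (N i) (κ i) a (F i)) x := by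
    intro x i
    have : (Pi.evalMonoidHom W i).comp Ω = FreeGroup.lift (sg (N i) (κ i) a (F i)) := by
      apply FreeGroup.ext_hom
      intro j
      simp [Ω, y]
    exact DFunLike.congr_fun this x
  let c1 : ∀ i, G i →* W i := fun i => (Wr.top (N i) (G := G i × G i)).comp (MonoidHom.inl _ _)
  let c2 : ∀ i, G i →* W i := fun i => (Wr.top (N i) (G := G i × G i)).comp (MonoidHom.inr _ _)
  have m1 : (QuotientGroup.mk (fun i => c1 i (κ i)) : UP U W) ∈ res Y (UP U W) :=
    map_res (upMap U c1) hk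
  have m2 : (QuotientGroup.mk (fun i => c2 i (κ i)) : UP U W) ∈ res Y (UP U W) :=
    map_res (upMap U c2) hk
  have hy : ∀ j, (QuotientGroup.mk (y j) : UP U W) ∈ res Y (UP U W) := by
    intro j
    have e : y j = ⁅(fun i => Wr.base (F i j) : ∀ i, W i), (fun i => c1 i (κ i))⁆ *
        (if j = a then (fun i => c2 i (κ i))⁻¹ else 1) := by
      funext i
      by_cases hj : j = a
      · simp only [y, sg, if_pos hj]
        rfl
      · simp only [y, sg, if_neg hj]
        rfl
    rw [e, commutatorElement_def]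
    rw [QuotientGroup.mk_mul]
    apply Subgroup.mul_mem
    · have m3 := Subgroup.mul_mem _
        ((inferInstance : (res Y (UP U W)).Normal).conj_mem _ m1
          (QuotientGroup.mk (fun i => (Wr.base (F i j) : W i)))) (Subgroup.inv_mem _ m1)
      exact m3
    · split_ifs
      · exact Subgroup.inv_mem _ m2
      · exact Subgroup.one_mem _
  let Θ : FreeGroup ℕ →* res Y (UP U W) := FreeGroup.lift fun j => ⟨QuotientGroup.mk (y j), hy j⟩
  have hΘ : ∀ x, ((Θ x : res Y (UP U W)) : UP U W) = QuotientGroup.mk (Ω x) := by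
    intro x
    have : (res Y (UP U W)).subtype.comp Θ = (QuotientGroup.mk' (upKer U W)).comp Ω := by
      apply FreeGroup.ext_hom
      intro j
      simp [Θ, Ω]
    exact DFunLike.congr_fun this x
  have h1 := hsl _ hW Θ
  have h2 : (QuotientGroup.mk (Ω (FreeGroup.mk ((a, true) :: l'))) : UP U W) = 1 := by
    rw [← hΘ, h1]; rfl
  rw [QuotientGroup.eq_one_iff, mem_upKer] at h2
  apply hk1
  rw [QuotientGroup.eq_one_iff, mem_upKer]
  filter_upwards [h2] with i hi
  by_contra hne
  exact hF i hne ((hΩ _ _).symm.trans hi)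

end Pool.Agent.Y35.PV.QV
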