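import Mathlib
import Pool.Agent.Y35.PV.QV.Rf

set_option autoImplicit false

namespace Pool.Agent.Y35.PV.QV

variable {𝒰 : FF}

open scoped commutatorElement

/-- Closed under homomorphic images. -/
def HCl (X : Cls) : Prop :=
  ∀ {G H : Type} [Group G] [Group H] (f : G →* H), Function.Surjective f → X G → X H

lemma HCl.mul {X Y : Cls} (hX : Closed 𝒰 X) (hY : Closed 𝒰 Y) (h1 : HCl X) (h2 : HCl Y) :
    HCl (mulCls X Y) := by
  intro G H _ _ f hf hG
  rw [mulCls_iff hX hY] at hG
  -- the image of the residual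
  let M : Subgroup H := (res Y G).map f
  have hM : M.Normal := Subgroup.Normal.map inferInstance f hf
  refine ⟨M, hM, ?_, ?_⟩
  · exact h1 (f.subgroupMap (res Y G)) (f.subgroupMap_surjective _) hG
  · let q : G ⧸ res Y G →* H ⧸ M := QuotientGroup.map _ _ f (fun x hx => ⟨x, hx, rfl⟩)
    refine h2 q ?_ (hY.quot_res G)
    intro y
    induction y using QuotientGroup.induction_on with
    | _ y =>
      obtain ⟨x, rfl⟩ := hf y
      exact ⟨QuotientGroup.mk x, rfl⟩

lemma HCl.left {X Y : Cls} (hX : Closed 𝒰 X) (hY : Closed 𝒰 Y)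
    {w : FreeGroup ℕ} (hw : w ≠ 1) (hs : Sat Y w) (h : HCl (mulCls X Y)) : HCl X := by
  intro H K _ _ f hf hH
  obtain ⟨C, iC, D, hPr⟩ := exists_pr hY hw hs
  have h1 : mulCls X Y (Wr H C) := wr_mem hX hY hH hPr.1
  have h2 : mulCls X Y (Wr K C) := by
    refine h (Wr.mapL f) ?_ h1
    intro y
    choose g hg using hf
    exact ⟨⟨fun x => g (y.f x), y.t⟩, by ext x <;> simp [hg]⟩
  rw [mulCls_iff hX hY] at h2
  refine hX.inj (MonoidHom.mk' (fun n => (⟨dg D n, dg_mem hPr n⟩ : res Y (Wr K C))) ?_) ?_ h2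
  · intro a b
    apply Subtype.ext
    exact dg_mul D a b
  · intro a b hab
    exact dg_inj hPr.2.1 (congrArg Subtype.val hab)

/-- the elements of the wreath product which are constant on the fibres -/
def fib (N : Type) [Group N] {G P : Type} [Group G] [Group P] (θ : G →* P) :
    Subgroup (Wr N G) where
  carrier := {x | ∀ s t, θ s = θ t → x.f s = x.f t}
  one_mem' := by intro s t _; rfl
  mul_mem' := by
    intro a b ha hb s t hst
    rw [Wr.mul_f, Wr.mul_f, ha s t hst, hb (a.t⁻¹ * s) (a.t⁻¹ * t) (by rw [map_mul, map_mul, hst])]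
  inv_mem' := by
    intro a ha s t hst
    rw [Wr.inv_f, Wr.inv_f, ha (a.t * s) (a.t * t) (by rw [map_mul, map_mul, hst])]

/-- the projection of the fibrewise constant elements -/
noncomputable def fibHom (N : Type) [Group N] {G P : Type} [Group G] [Group P] (θ : G →* P)
    (hθ : Function.Surjective θ) : fib N θ →* Wr N P where
  toFun x := ⟨fun p => x.1.f (hθ p).choose, θ x.1.t⟩
  map_one' := by
    ext p
    · rfl
    · exact map_one θ
  map_mul' := by
    intro a b
    ext p
    · change a.1.f _ * b.1.f _ = a.1.f _ * b.1.f _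
      congr 1
      apply b.2
      rw [map_mul, (hθ p).choose_spec, map_inv, (hθ _).choose_spec]
    · exact map_mul θ _ _

lemma fibHom_surj (N : Type) [Group N] {G P : Type} [Group G] [Group P] (θ : G →* P)
    (hθ : Function.Surjective θ) : Function.Surjective (fibHom N θ hθ) := by
  intro y
  obtain ⟨t, ht⟩ := hθ y.t
  refine ⟨⟨⟨fun x => y.f (θ x), t⟩, fun s t hst => by simp only [hst]⟩, ?_⟩
  ext p
  · change y.f (θ (hθ p).choose) = y.f p
    rw [(hθ p).choose_spec]
  · exact ht

lemma HCl.right {X Y : Cls} (hX : Closed 𝒰 X) (hY : Closed 𝒰 Y)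
    {w : FreeGroup ℕ} (hw : w ≠ 1) (hs : Sat X w) (h : HCl (mulCls X Y)) : HCl Y := by
  intro G P _ _ θ hθ hG
  obtain ⟨l, hl, hsl, hmin⟩ := exists_min hw hs
  apply hY.of_res
  intro k hk
  by_contra hk1
  obtain ⟨l₁, h1, h2, h3⟩ := descent X ⟨Unit, inferInstance, hX.triv (fun _ => rfl)⟩ hk1 l hl (by
    intro N _ hN φ
    let θ₂ : G × G →* P × P := MonoidHom.prodMap θ θ
    have hθ₂ : Function.Surjective θ₂ := Function.Surjective.prodMap hθ hθ
    have h4 : mulCls X Y (Wr N (G × G)) := wr_mem hX hY hN (hY.prod hG hG)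
    have h5 : mulCls X Y (Wr N (P × P)) :=
      h (fibHom N θ₂ hθ₂) (fibHom_surj N θ₂ hθ₂) ((closed_mulCls hX hY).subgroup h4 _)
    rw [mulCls_iff hX hY] at h5
    have h6 := hsl _ h5 ((Subgroup.inclusion (TS_le hk N)).comp φ)
    apply Subgroup.inclusion_injective (TS_le hk N)
    rw [map_one]
    exact h6)
  exact h2 (hmin l₁ h1 h3)

end Pool.Agent.Y35.PV.QV
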