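import Mathlib

set_option autoImplicit false

namespace Pool.Agent.Y35.PV.QV

section

variable {S : Type*} [Monoid S]

lemma len_le (L : S → ℕ) (hL : ∀ x y, y ≠ 1 → L x < L (x * y)) (l : List S)
    (h : ∀ y ∈ l, y ≠ 1) (x : S) : L x + l.length ≤ L (x * l.prod) := by
  induction l generalizing x with
  | nil => simp
  | cons a l ih =>
    have h1 := hL x a (h a List.mem_cons_self)
    have h2 := ih (fun y hy => h y (List.mem_cons_of_mem _ hy)) (x * a)
    rw [List.prod_cons, ← mul_assoc, List.length_cons]
    omega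

/-- irreducible elements -/
def irr (S : Type*) [Monoid S] : Set S := {a | a ≠ 1 ∧ ∀ x y, a = x * y → x = 1 ∨ y = 1}

lemma exists_fact (L : S → ℕ) (hL : ∀ x y, y ≠ 1 → L x < L (x * y)) (x : S) :
    ∃ l : List S, (∀ y ∈ l, y ∈ irr S) ∧ l.prod = x := by
  classical
  -- factorizations into non-identity elements of maximal length
  let P : ℕ → Prop := fun n => ∃ l : List S, l.length = n ∧ (∀ y ∈ l, y ≠ 1) ∧ l.prod = x
  have hbd : ∀ n, P n → n ≤ L x := by
    rintro n ⟨l, hl, h1, h2⟩
    have := len_le L hL l h1 1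
    rw [one_mul, h2] at this
    omega
  have hex : ∃ n, P n := by
    by_cases hx : x = 1
    · exact ⟨0, [], rfl, by simp, by simp [hx]⟩
    · exact ⟨1, [x], rfl, by simpa using hx, by simp⟩
  obtain ⟨n₀, hn₀⟩ := hex
  have hmax := Nat.findGreatest_spec (P := P) (hbd n₀ hn₀) hn₀
  obtain ⟨l, hl, h1, h2⟩ := hmax
  refine ⟨l, fun y hy => ⟨h1 y hy, fun a b hab => ?_⟩, h2⟩
  by_contra hcon
  rw [not_or] at hcon
  obtain ⟨l₁, l₂, rfl⟩ := List.append_of_mem hy
  have h3 : P (Nat.findGreatest P (L x) + 1) := by
    refine ⟨l₁ ++ a :: b :: l₂, ?_, ?_, ?_⟩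
    · rw [← hl]; simp; omega
    · intro z hz
      simp only [List.mem_append, List.mem_cons] at hz
      rcases hz with hz | rfl | rfl | hz
      · exact h1 z (by simp [hz])
      · exact hcon.1
      · exact hcon.2
      · exact h1 z (by simp [hz])
    · rw [← h2, List.prod_append, List.prod_append, List.prod_cons, List.prod_cons, List.prod_cons,
        hab, mul_assoc]
  have h4 := hbd _ h3
  have h5 := Nat.le_findGreatest h4 h3
  omega

lemma unique_fact (L : S → ℕ) (hL : ∀ x y, y ≠ 1 → L x < L (x * y))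
    (heq : ∀ a b c d : S, a * b = c * d → (∃ z, a = c * z ∧ d = z * b) ∨
      (∃ z, c = a * z ∧ b = z * d)) (l : List S) : ∀ l' : List S, (∀ y ∈ l, y ∈ irr S) →
      (∀ y ∈ l', y ∈ irr S) → l.prod = l'.prod → l = l' := by
  induction l with
  | nil =>
    intro l' _ h' hp
    have := len_le L hL l' (fun y hy => (h' y hy).1) 1
    rw [← hp] at this
    simp only [List.prod_nil, mul_one] at this
    have h0 : l'.length = 0 := by omega
    exact (List.length_eq_zero_iff.1 h0).symm
  | cons a l ih =>
    intro l' h h' hp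
    cases l' with
    | nil =>
      exfalso
      have := len_le L hL (a :: l) (fun y hy => (h y hy).1) 1
      rw [hp] at this
      simp at this
    | cons b l' =>
      rw [List.prod_cons, List.prod_cons] at hp
      have ha := h a List.mem_cons_self
      have hb := h' b List.mem_cons_self
      rcases heq _ _ _ _ hp with ⟨z, h1, h2⟩ | ⟨z, h1, h2⟩
      · rcases ha.2 b z h1 with h3 | h3
        · exact absurd h3 hb.1
        · subst h3
          rw [mul_one] at h1
          rw [one_mul] at h2
          rw [h1, ih l' (fun y hy => h y (List.mem_cons_of_mem _ hy))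
            (fun y hy => h' y (List.mem_cons_of_mem _ hy)) h2.symm]
      · rcases hb.2 a z h1 with h3 | h3
        · exact absurd h3 ha.1
        · subst h3
          rw [mul_one] at h1
          rw [one_mul] at h2
          rw [h1, ih l' (fun y hy => h y (List.mem_cons_of_mem _ hy))
            (fun y hy => h' y (List.mem_cons_of_mem _ hy)) h2]

theorem exists_unique_fact (L : S → ℕ) (hL : ∀ x y, y ≠ 1 → L x < L (x * y))
    (heq : ∀ a b c d : S, a * b = c * d → (∃ z, a = c * z ∧ d = z * b) ∨
      (∃ z, c = a * z ∧ b = z * d)) (x : S) :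
    ∃! l : List S, (∀ y ∈ l, y ∈ irr S) ∧ l.prod = x := by
  obtain ⟨l, h1, h2⟩ := exists_fact L hL x
  refine ⟨l, ⟨h1, h2⟩, fun l' h' => ?_⟩
  exact unique_fact L hL heq l' l h'.1 h1 (h'.2.trans h2.symm)

lemma free_of_unique (A : Set S) (h : ∀ x : S, ∃! l : List S, (∀ y ∈ l, y ∈ A) ∧ l.prod = x) :
    ∃ e : FreeMonoid A ≃* S, ∀ a : A, e (FreeMonoid.of a) = (a : S) := by
  have hval : ∀ l : FreeMonoid A, FreeMonoid.lift (fun a : A => (a : S)) l =
      ((FreeMonoid.toList l).map Subtype.val).prod := by
    intro l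
    rw [FreeMonoid.lift_apply]
  have hbij : Function.Bijective (FreeMonoid.lift (fun a : A => (a : S))) := by
    constructor
    · intro l l' hll
      rw [hval, hval] at hll
      obtain ⟨m, _, hm⟩ := h ((FreeMonoid.toList l').map Subtype.val).prod
      have h1 := hm ((FreeMonoid.toList l).map Subtype.val) ⟨by
        intro y hy
        obtain ⟨a, _, rfl⟩ := List.mem_map.1 hy
        exact a.2, hll⟩
      have h2 := hm ((FreeMonoid.toList l').map Subtype.val) ⟨by
        intro y hy
        obtain ⟨a, _, rfl⟩ := List.mem_map.1 hy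
        exact a.2, rfl⟩
      have h3 := h1.trans h2.symm
      have h4 := List.map_injective_iff.2 Subtype.val_injective h3
      exact FreeMonoid.toList.injective h4
    · intro x
      obtain ⟨l, ⟨h1, h2⟩, _⟩ := h x
      refine ⟨FreeMonoid.ofList (l.pmap (fun a ha => (⟨a, ha⟩ : A)) h1), ?_⟩
      rw [hval, FreeMonoid.toList_ofList, List.map_pmap]
      simpa using h2
  exact ⟨MulEquiv.ofBijective _ hbij, fun a => by simp⟩

end

end Pool.Agent.Y35.PV.QV
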