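import Mathlib
import Pool.Agent.Y35.PV.QV.Eq

set_option autoImplicit false

namespace Pool.Agent.Y35.PV.QV

variable {𝒰 : FF}

open Monoid

/-- free product of countably many free groups -/
abbrev FP : Type := CoprodI (fun _ : ℕ => FreeGroup ℕ)

/-- the cyclic subgroups generated by the copies of a word -/
def cyc (v : FreeGroup ℕ) (i : ℕ) : FreeGroup Unit →* FP :=
  (CoprodI.of (M := fun _ : ℕ => FreeGroup ℕ) (i := i)).comp (FreeGroup.lift fun _ => v)

lemma unit_pow (h : FreeGroup Unit) : ∃ n : ℤ, h = FreeGroup.of () ^ n :=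
  ⟨FreeGroup.freeGroupUnitEquivInt h, (FreeGroup.freeGroupUnitEquivInt.left_inv h).symm⟩

lemma cyc_inj {v : FreeGroup ℕ} (hv : v ≠ 1) :
    Function.Injective (CoprodI.lift (cyc v)) := by
  classical
  have hne : ∀ h : FreeGroup Unit, h ≠ 1 → FreeGroup.lift (fun _ => v) h ≠ 1 := by
    intro h hh
    obtain ⟨n, rfl⟩ := unit_pow h
    have hn : n ≠ 0 := by
      rintro rfl
      exact hh (zpow_zero _)
    rw [map_zpow, FreeGroup.lift_apply_of]
    intro h1
    exact hv ((IsMulTorsionFree.zpow_eq_one_iff_left hn).1 h1)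
  refine CoprodI.lift_injective_of_ping_pong (cyc v) (Or.inl ?_)
    (α := CoprodI.Word (fun _ : ℕ => FreeGroup ℕ))
    (fun i => {w | w.fstIdx = some i}) ?_ ?_ ?_
  · rw [Cardinal.mk_nat]
    exact_mod_cast (Cardinal.natCast_lt_aleph0 (n := 3)).le
  · intro i
    refine ⟨CoprodI.Word.cons (i := i) (FreeGroup.of 0) CoprodI.Word.empty (by
      simp [CoprodI.Word.fstIdx, CoprodI.Word.empty]) (by simp), ?_⟩
    exact CoprodI.Word.fstIdx_cons _ _ _ _
  · intro i j hij
    rw [Function.onFun, Set.disjoint_left]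
    intro w h1 h2
    have h1' : w.fstIdx = some i := h1
    have h2' : w.fstIdx = some j := h2
    rw [h1'] at h2'
    exact hij (Option.some.inj h2')
  · intro i j hij h hh
    rintro _ ⟨w, hw, rfl⟩
    have hw' : w.fstIdx = some j := hw
    have h1 : w.fstIdx ≠ some i := by
      rw [hw']
      intro h2
      exact hij (Option.some.inj h2).symm
    change (cyc v i h • w).fstIdx = some i
    have h2 : cyc v i h • w = CoprodI.Word.cons (i := i) (FreeGroup.lift (fun _ => v) h) w h1
        (hne h hh) := by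
      rw [CoprodI.Word.cons_eq_smul]
      rfl
    rw [h2]
    exact CoprodI.Word.fstIdx_cons _ _ _ _

lemma lift_inj {v : FreeGroup ℕ} (hv : v ≠ 1) : Function.Injective
    (FreeGroup.lift fun i : ℕ => CoprodI.of (M := fun _ : ℕ => FreeGroup ℕ) (i := i) v) := by
  have h1 : (FreeGroup.lift fun i : ℕ => CoprodI.of (M := fun _ : ℕ => FreeGroup ℕ) (i := i) v) =
      (CoprodI.lift (cyc v)).comp (freeGroupEquivCoprodI (ι := ℕ)).toMonoidHom := by
    ext i
    simp [cyc]
  rw [h1]
  exact (cyc_inj hv).comp (freeGroupEquivCoprodI (ι := ℕ)).injective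

/-- The substitution of copies of `v` in disjoint sets of variables. -/
def sbs (v : FreeGroup ℕ) : FreeGroup ℕ →* FreeGroup ℕ :=
  FreeGroup.lift fun i => FreeGroup.map (fun j => Nat.pair i j) v

lemma sbs_ne {u v : FreeGroup ℕ} (hu : u ≠ 1) (hv : v ≠ 1) : sbs v u ≠ 1 := by
  intro h
  let Φ : FreeGroup ℕ →* FP := FreeGroup.lift fun n =>
    CoprodI.of (M := fun _ : ℕ => FreeGroup ℕ) (i := (Nat.unpair n).1)
      (FreeGroup.of (Nat.unpair n).2)
  have h1 : Φ.comp (sbs v) =
      FreeGroup.lift fun i : ℕ => CoprodI.of (M := fun _ : ℕ => FreeGroup ℕ) (i := i) v := by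
    apply FreeGroup.ext_hom
    intro i
    rw [MonoidHom.comp_apply, sbs, FreeGroup.lift_apply_of, FreeGroup.lift_apply_of]
    have h2 : Φ.comp (FreeGroup.map (fun j => Nat.pair i j)) =
        CoprodI.of (M := fun _ : ℕ => FreeGroup ℕ) (i := i) := by
      apply FreeGroup.ext_hom
      intro j
      rw [MonoidHom.comp_apply, FreeGroup.map.of, FreeGroup.lift_apply_of]
      rw [Nat.unpair_pair]
    exact DFunLike.congr_fun h2 v
  apply hu
  apply lift_inj hv
  rw [← h1, MonoidHom.comp_apply, h, map_one, map_one]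

lemma sat_mul {X Y : Cls} (hX : Closed 𝒰 X) (hY : Closed 𝒰 Y) {u v : FreeGroup ℕ} (hsX : Sat X u)
    (hsY : Sat Y v) : Sat (mulCls X Y) (sbs v u) := by
  intro G _ hG φ
  rw [mulCls_iff hX hY] at hG
  have h1 : ∀ i, φ (FreeGroup.map (fun j => Nat.pair i j) v) ∈ res Y G := by
    intro i H _ hH f
    exact hsY H hH ((f.comp φ).comp (FreeGroup.map (fun j => Nat.pair i j)))
  have h2 : φ.comp (sbs v) = (res Y G).subtype.comp
      (FreeGroup.lift fun i => (⟨_, h1 i⟩ : res Y G)) := by
    apply FreeGroup.ext_hom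
    intro i
    rw [MonoidHom.comp_apply, MonoidHom.comp_apply, sbs, FreeGroup.lift_apply_of,
      FreeGroup.lift_apply_of]
    rfl
  have h3 := DFunLike.congr_fun h2 u
  rw [MonoidHom.comp_apply, MonoidHom.comp_apply, hsX _ hG, map_one] at h3
  exact h3

end Pool.Agent.Y35.PV.QV
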